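import Pool.Agent.Q293.DP.Pattern

/-!
# The identity is avoided at least as often as the identity with its last two letters exchanged

For uniform distant patterns `dist_r`, every `m ≥ 3` and all `n` (so with `n₀ = 0` in Q1).
-/

set_option autoImplicit false

namespace Pool.Agent.Results.MP_47869a_co.IdentityWins

open Equiv Pool.Agent.Q293.DP

/-- The permutation `π` of `n` letters contains the uniform distant pattern `dist_r(q)`, where
`q` is a permutation of `m` letters: there are positions `t 0, t 1, …, t (m-1)` with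
`t (x+1) - t x ≥ r + 1` at which the entries of `π` are in the same relative order as `q`. -/
def ContainsDist (r : ℕ) {m n : ℕ} (q : Perm (Fin m)) (π : Perm (Fin n)) : Prop :=
  ∃ t : Fin m → Fin n, (∀ x y : Fin m, (x : ℕ) + 1 = y → (t x : ℕ) + r + 1 ≤ t y) ∧
    ∀ x y, π (t x) < π (t y) ↔ q x < q y

/-- The number of permutations of `n` letters which avoid `dist_r(q)`. -/
noncomputable def avoiders (r n : ℕ) {m : ℕ} (q : Perm (Fin m)) : ℕ :=
  {π : Perm (Fin n) | ¬ ContainsDist r q π}.ncard

/-- Bridge to the patterns of the library file. -/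
lemma bridge {r m n : ℕ} (q : Perm (Fin (m + 1))) (π : Perm (Fin n)) :
    ContainsDist r q π ↔ Contains (fun x => (q x : ℕ)) (fun _ => r) π := by
  constructor
  · rintro ⟨t, h1, h2⟩
    refine ⟨t, fun x => ?_, fun x y hxy => (h2 x y).2 (Fin.lt_def.2 hxy)⟩
    have := h1 x.castSucc x.succ (by simp)
    show (t x.castSucc : ℕ) + r < t x.succ
    omega
  · rintro ⟨t, h1, h2⟩
    refine ⟨t, ?_, ?_⟩
    · intro x y hxy
      have hx : (x : ℕ) < m := by have := y.2; omega
      have e1 : x = (⟨x, hx⟩ : Fin m).castSucc := rfl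
      have e2 : y = (⟨x, hx⟩ : Fin m).succ := Fin.ext hxy.symm
      have h3 : (t (⟨x, hx⟩ : Fin m).castSucc : ℕ) + r < t (⟨x, hx⟩ : Fin m).succ := h1 ⟨x, hx⟩
      rw [← e1, ← e2] at h3
      omega
    · intro x y
      constructor
      · intro h
        by_contra hle
        rcases eq_or_lt_of_le (not_lt.1 hle) with he | hlt
        · rw [q.injective he] at h
          exact lt_irrefl _ h
        · exact lt_asymm h (h2 y x (Fin.lt_def.1 hlt))
      · exact fun h => h2 x y (Fin.lt_def.1 h)

lemma avoiders_eq {r m n : ℕ} (q : Perm (Fin (m + 1))) :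
    avoiders r n q = av n (fun x => (q x : ℕ)) (fun _ => r) := by
  unfold avoiders av
  simp only [bridge]

/-- `τ_m = 1 2 ⋯ (m-2) m (m-1)`: the identity of `m` letters with its last two entries exchanged. -/
def tau (m : ℕ) (h : 3 ≤ m) : Perm (Fin m) :=
  Equiv.swap ⟨m - 2, by omega⟩ ⟨m - 1, by omega⟩

/-- Q1 for all `n`, `m ≥ 3` and `r ≥ 0`:
`|Av_n(dist_r(12⋯m))| ≥ |Av_n(dist_r(12⋯(m-2)m(m-1)))|`. -/
theorem result : ∀ (m : ℕ) (h : 3 ≤ m) (r n : ℕ),
    avoiders r n (tau m h) ≤ avoiders r n (1 : Perm (Fin m)) := by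
  intro m h r n
  obtain ⟨k, rfl⟩ : ∃ k, m = k + 2 + 1 := ⟨m - 3, by omega⟩
  rw [avoiders_eq, avoiders_eq]
  have hg : gaps r r (fun _ : Fin k => r) = fun _ => r := by
    funext x
    refine Fin.cases rfl (fun x => ?_) x
    refine Fin.cases rfl (fun x => rfl) x
  have hup : ∀ x : Fin (k + 2 + 1), up (fun x : Fin (k + 1) => (x : ℕ)) x = x := by
    intro x
    refine Fin.cases rfl (fun x => ?_) x
    refine Fin.cases rfl (fun x => ?_) x
    simp [up]
  have hdn : ∀ x : Fin (k + 2 + 1), dn (fun x : Fin (k + 1) => (x : ℕ)) x =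
      if (x : ℕ) = 0 then (1 : ℕ) else if (x : ℕ) = 1 then (0 : ℕ) else (x : ℕ) := by
    intro x
    refine Fin.cases rfl (fun x => ?_) x
    refine Fin.cases rfl (fun x => ?_) x
    simp [dn]
  have htau : ∀ x : Fin (k + 2 + 1), ((tau (k + 2 + 1) h x : Fin (k + 2 + 1)) : ℕ) =
      if (x : ℕ) = k + 1 then (k + 2 : ℕ) else if (x : ℕ) = k + 2 then (k + 1 : ℕ) else (x : ℕ) := by
    intro x
    unfold tau
    by_cases h1 : (x : ℕ) = k + 1
    · have : x = ⟨k + 2 + 1 - 2, by omega⟩ := Fin.ext (by simp [h1])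
      rw [if_pos h1, this, Equiv.swap_apply_left]
      simp
    · rw [if_neg h1]
      by_cases h2 : (x : ℕ) = k + 2
      · have : x = ⟨k + 2 + 1 - 1, by omega⟩ := Fin.ext (by simp [h2])
        rw [if_pos h2, this, Equiv.swap_apply_right]
        simp
      · rw [if_neg h2, Equiv.swap_apply_of_ne_of_ne]
        · intro he
          apply h1
          rw [he]
          simp
        · intro he
          apply h2
          rw [he]
          simp
  have key := av_le n (fun x : Fin (k + 1) => (x : ℕ)) (fun _ => r) r r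
  rw [hg] at key
  have e1 : av n (fun x => (((1 : Perm (Fin (k + 2 + 1))) x : Fin (k + 2 + 1)) : ℕ)) (fun _ => r) =
      av n (up (fun x : Fin (k + 1) => (x : ℕ))) (fun _ => r) := by
    apply av_congr
    intro x y
    rw [hup, hup]
    simp
  have e2 : av n (dn (fun x : Fin (k + 1) => (x : ℕ))) (fun _ => r) =
      av n (fun x => ((tau (k + 2 + 1) h x : Fin (k + 2 + 1)) : ℕ)) (fun _ => r) := by
    apply av_rc
    · intro x y
      have k1 := hdn y.rev
      have k2 := hdn x.rev
      have k3 := htau x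
      have k4 := htau y
      rw [Fin.val_rev] at k1 k2
      have hx := x.2
      have hy := y.2
      rw [k1, k2, k3, k4]
      split_ifs <;> omega
    · intro x
      rfl
  rw [e1, ← e2]
  exact key

end Pool.Agent.Results.MP_47869a_co.IdentityWins
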